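import Mathlib

set_option autoImplicit false

namespace Pool.Agent.Results.MP_1d7b2e_al.StabiliserFinite

open Subgroup
open scoped Pointwise commutatorElement

universe u

/-! ### A finiteness criterion -/

theorem finite_commSet {H : Type*} [Group H] (h : (center H).index ≠ 0) :
    Finite (commutatorSet H) := by
  classical
  have hfi : (center H).FiniteIndex := ⟨h⟩
  have : Finite (H ⧸ center H) := inferInstance
  let f : (H ⧸ center H) × (H ⧸ center H) → H := fun p => ⁅p.1.out, p.2.out⁆
  have hsub : commutatorSet H ⊆ Set.range f := by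
    rintro g ⟨a, b, rfl⟩
    refine ⟨((a : H ⧸ center H), (b : H ⧸ center H)), ?_⟩
    obtain ⟨z, hz⟩ := QuotientGroup.mk_out_eq_mul (center H) a
    obtain ⟨y, hy⟩ := QuotientGroup.mk_out_eq_mul (center H) b
    have hzc : ∀ g : H, g * (z : H) = z * g := fun g => (mem_center_iff.1 z.2) g
    have hyc : ∀ g : H, g * (y : H) = y * g := fun g => (mem_center_iff.1 y.2) g
    show ⁅((a : H ⧸ center H)).out, ((b : H ⧸ center H)).out⁆ = ⁅a, b⁆
    rw [hz, hy, commutatorElement_def, commutatorElement_def, mul_inv_rev, mul_inv_rev]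
    have e1 : a * (z : H) * (b * (y : H)) * ((z : H)⁻¹ * a⁻¹) * ((y : H)⁻¹ * b⁻¹)
        = a * ((z : H) * b) * ((y : H) * ((z : H)⁻¹ * a⁻¹)) * ((y : H)⁻¹ * b⁻¹) := by group
    rw [e1, ← hzc b, ← hyc ((z : H)⁻¹ * a⁻¹)]
    have e2 : a * (b * (z : H)) * ((z : H)⁻¹ * a⁻¹ * (y : H)) * ((y : H)⁻¹ * b⁻¹)
        = a * b * a⁻¹ * b⁻¹ := by group
    exact e2
  exact ((Set.finite_range f).subset hsub).to_subtype

theorem finite_of_center {H : Type*} [Group H] [Group.FG H] (S : Set H) (hS : closure S = ⊤)
    (ht : ∀ s ∈ S, IsOfFinOrder s) (h : (center H).index ≠ 0) : Finite H := by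
  have := finite_commSet h
  have h1 : Finite (_root_.commutator H) := inferInstance
  have hab : Finite (Abelianization H) := by
    have : Group.FG (Abelianization H) := Group.fg_of_surjective
      (f := Abelianization.of) (QuotientGroup.mk'_surjective _)
    apply CommGroup.finite_of_fg_isMulTorsion
    intro g
    have hg : g ∈ CommGroup.torsion (Abelianization H) := by
      have h2 : (⊤ : Subgroup H) ≤ (CommGroup.torsion (Abelianization H)).comap Abelianization.of := by
        rw [← hS, closure_le]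
        intro s hs
        exact (Abelianization.of : H →* Abelianization H).isOfFinOrder (ht s hs)
      obtain ⟨x, rfl⟩ := QuotientGroup.mk'_surjective _ g
      exact h2 (mem_top x)
    exact hg
  have : Finite (H ⧸ _root_.commutator H) := hab
  exact Finite.of_equiv _ (groupEquivQuotientProdSubgroup (s := _root_.commutator H)).symm

/-! ### Automorphisms of the free group -/

variable {n : ℕ}

/-- the last free generator -/
abbrev x : FreeGroup (Fin (n + 1)) := FreeGroup.of (Fin.last n)

/-- the inclusion of the free factor of rank `n` -/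
def ι : FreeGroup (Fin n) →* FreeGroup (Fin (n + 1)) := FreeGroup.map Fin.castSucc

theorem ι_of (i : Fin n) : ι (FreeGroup.of i) = FreeGroup.of i.castSucc := by
  simp [ι]

theorem ι_inj : Function.Injective (ι (n := n)) :=
  FreeGroup.map_injective (Fin.castSucc_injective n)

theorem ι_range : (ι (n := n)).range =
    closure (Set.range (fun i : Fin n => FreeGroup.of i.castSucc)) := by
  rw [MonoidHom.range_eq_map, ← FreeGroup.closure_range_of, MonoidHom.map_closure, ← Set.range_comp]
  congr 1

theorem hom_ext' {M : Type*} [Monoid M] {f g : FreeGroup (Fin (n + 1)) →* M}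
    (h1 : ∀ v, f (ι v) = g (ι v)) (h2 : f x = g x) : f = g := by
  apply FreeGroup.ext_hom
  intro i
  refine Fin.lastCases h2 (fun i => ?_) i
  have := h1 (FreeGroup.of i)
  rwa [ι_of] at this

theorem aut_ext {σ τ : MulAut (FreeGroup (Fin (n + 1)))}
    (h1 : ∀ v, σ (ι v) = τ (ι v)) (h2 : σ x = τ x) : σ = τ := by
  apply MulEquiv.toMonoidHom_injective
  exact hom_ext' h1 h2

/-- endomorphism given on the free factor and on the last generator -/
def mk (f : FreeGroup (Fin n) →* FreeGroup (Fin (n + 1))) (y : FreeGroup (Fin (n + 1))) :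
    FreeGroup (Fin (n + 1)) →* FreeGroup (Fin (n + 1)) :=
  FreeGroup.lift (Fin.lastCases (motive := fun _ => FreeGroup (Fin (n + 1))) y
    (fun i => f (FreeGroup.of i)))

theorem mk_x (f : FreeGroup (Fin n) →* FreeGroup (Fin (n + 1))) (y) : mk f y x = y := by
  simp [mk, x]

theorem mk_ι (f : FreeGroup (Fin n) →* FreeGroup (Fin (n + 1))) (y) (v : FreeGroup (Fin n)) :
    mk f y (ι v) = f v := by
  have : (mk f y).comp ι = f := by
    apply FreeGroup.ext_hom
    intro i
    rw [MonoidHom.comp_apply, ι_of]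
    simp [mk]
  exact DFunLike.congr_fun this v

/-- extension of an automorphism of the free factor fixing `x` -/
def E : MulAut (FreeGroup (Fin n)) →* MulAut (FreeGroup (Fin (n + 1))) where
  toFun α := MonoidHom.toMulEquiv (mk (ι.comp α.toMonoidHom) x) (mk (ι.comp α⁻¹.toMonoidHom) x)
    (by
      apply hom_ext'
      · intro v
        simp only [MonoidHom.comp_apply, mk_ι]
        exact congrArg ι (α.symm_apply_apply v)
      · simp only [MonoidHom.comp_apply, mk_x, MonoidHom.id_apply])
    (by
      apply hom_ext'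
      · intro v
        simp only [MonoidHom.comp_apply, mk_ι]
        exact congrArg ι (α.apply_symm_apply v)
      · simp only [MonoidHom.comp_apply, mk_x, MonoidHom.id_apply])
  map_one' := by
    apply aut_ext
    · intro v
      show mk _ _ (ι v) = ι v
      rw [mk_ι]; rfl
    · show mk _ _ x = x
      rw [mk_x]
  map_mul' α β := by
    apply aut_ext
    · intro v
      show mk _ _ (ι v) = mk _ _ (mk _ _ (ι v))
      rw [mk_ι, mk_ι]
      show _ = mk _ _ (ι (β v))
      rw [mk_ι]; rfl
    · show mk _ _ x = mk _ _ (mk _ _ x)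
      rw [mk_x, mk_x, mk_x]

theorem E_ι (α : MulAut (FreeGroup (Fin n))) (v) : E α (ι v) = ι (α v) := mk_ι _ _ v
theorem E_x (α : MulAut (FreeGroup (Fin n))) : E α x = x := mk_x _ _

/-- `x ↦ u x w`, identity on the free factor -/
def T (u w : FreeGroup (Fin n)) : MulAut (FreeGroup (Fin (n + 1))) :=
  MonoidHom.toMulEquiv (mk ι (ι u * x * ι w)) (mk ι (ι u⁻¹ * x * ι w⁻¹))
    (by
      apply hom_ext'
      · intro v; simp only [MonoidHom.comp_apply, mk_ι, MonoidHom.id_apply]
      · simp only [MonoidHom.comp_apply, mk_x, MonoidHom.id_apply, map_mul, mk_ι, map_inv]; group)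
    (by
      apply hom_ext'
      · intro v; simp only [MonoidHom.comp_apply, mk_ι, MonoidHom.id_apply]
      · simp only [MonoidHom.comp_apply, mk_x, MonoidHom.id_apply, map_mul, mk_ι, map_inv]; group)

theorem T_ι (u w v : FreeGroup (Fin n)) : T u w (ι v) = ι v := mk_ι _ _ v
theorem T_x (u w : FreeGroup (Fin n)) : T u w x = ι u * x * ι w := mk_x _ _

/-- right multiplications -/
def R : FreeGroup (Fin n) →* MulAut (FreeGroup (Fin (n + 1))) :=
  MonoidHom.mk' (fun w => T 1 w) (by
    intro a b
    apply aut_ext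
    · intro v; rw [MulAut.mul_apply, T_ι, T_ι, T_ι]
    · rw [MulAut.mul_apply, T_x, T_x]; simp only [map_mul, T_x, T_ι, map_one]; group)

/-- left multiplications -/
def L : FreeGroup (Fin n) →* MulAut (FreeGroup (Fin (n + 1))) :=
  MonoidHom.mk' (fun w => T w⁻¹ 1) (by
    intro a b
    apply aut_ext
    · intro v; rw [MulAut.mul_apply, T_ι, T_ι, T_ι]
    · rw [MulAut.mul_apply, T_x, T_x]; simp only [map_mul, T_x, T_ι, map_one, map_inv]; group)

/-- `x ↦ x⁻¹` -/
def J : MulAut (FreeGroup (Fin (n + 1))) :=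
  MonoidHom.toMulEquiv (mk ι x⁻¹) (mk ι x⁻¹)
    (by
      apply hom_ext'
      · intro v; simp only [MonoidHom.comp_apply, mk_ι, MonoidHom.id_apply]
      · simp only [MonoidHom.comp_apply, mk_x, MonoidHom.id_apply, map_inv, inv_inv])
    (by
      apply hom_ext'
      · intro v; simp only [MonoidHom.comp_apply, mk_ι, MonoidHom.id_apply]
      · simp only [MonoidHom.comp_apply, mk_x, MonoidHom.id_apply, map_inv, inv_inv])

theorem J_ι (v : FreeGroup (Fin n)) : J (ι v) = ι v := mk_ι _ _ v
theorem J_x : J (x (n := n)) = x⁻¹ := mk_x _ _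

theorem conj_R (α : MulAut (FreeGroup (Fin n))) (w : FreeGroup (Fin n)) :
    R (α w) = E α * R w * (E α)⁻¹ := by
  rw [eq_mul_inv_iff_mul_eq]
  apply aut_ext
  · intro v
    rw [MulAut.mul_apply, MulAut.mul_apply, E_ι]
    show T _ _ (ι (α v)) = E α (T _ _ (ι v))
    rw [T_ι, T_ι, E_ι]
  · rw [MulAut.mul_apply, MulAut.mul_apply, E_x]
    show T _ _ x = E α (T _ _ x)
    rw [T_x, T_x]; simp only [map_mul, E_ι, E_x, map_one]

theorem conj_L (α : MulAut (FreeGroup (Fin n))) (w : FreeGroup (Fin n)) :
    L (α w) = E α * L w * (E α)⁻¹ := by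
  rw [eq_mul_inv_iff_mul_eq]
  apply aut_ext
  · intro v
    rw [MulAut.mul_apply, MulAut.mul_apply, E_ι]
    show T _ _ (ι (α v)) = E α (T _ _ (ι v))
    rw [T_ι, T_ι, E_ι]
  · rw [MulAut.mul_apply, MulAut.mul_apply, E_x]
    show T _ _ x = E α (T _ _ x)
    rw [T_x, T_x]; simp only [map_mul, E_ι, E_x, map_one, map_inv]

/-- transvection `x_j ↦ x_j x_i` of the free factor -/
theorem exists_trans {i j : Fin n} (hij : i ≠ j) : ∃ l : MulAut (FreeGroup (Fin n)),
    l (FreeGroup.of i) = FreeGroup.of i ∧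
    l (FreeGroup.of j) = FreeGroup.of j * FreeGroup.of i := by
  classical
  let f : Fin n → FreeGroup (Fin n) := fun k =>
    if k = j then FreeGroup.of j * FreeGroup.of i else FreeGroup.of k
  let g : Fin n → FreeGroup (Fin n) := fun k =>
    if k = j then FreeGroup.of j * (FreeGroup.of i)⁻¹ else FreeGroup.of k
  have fi : f i = FreeGroup.of i := if_neg hij
  have gi : g i = FreeGroup.of i := if_neg hij
  have fj : f j = FreeGroup.of j * FreeGroup.of i := if_pos rfl
  have gj : g j = FreeGroup.of j * (FreeGroup.of i)⁻¹ := if_pos rfl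
  refine ⟨MonoidHom.toMulEquiv (FreeGroup.lift f) (FreeGroup.lift g) ?_ ?_, ?_, ?_⟩
  · apply FreeGroup.ext_hom
    intro k
    rw [MonoidHom.comp_apply, FreeGroup.lift_apply_of, MonoidHom.id_apply]
    by_cases hk : k = j
    · subst hk
      rw [fj, map_mul, FreeGroup.lift_apply_of, FreeGroup.lift_apply_of, gj, gi]; group
    · have : f k = FreeGroup.of k := if_neg hk
      rw [this, FreeGroup.lift_apply_of]; exact if_neg hk
  · apply FreeGroup.ext_hom
    intro k
    rw [MonoidHom.comp_apply, FreeGroup.lift_apply_of, MonoidHom.id_apply]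
    by_cases hk : k = j
    · subst hk
      rw [gj, map_mul, map_inv, FreeGroup.lift_apply_of, FreeGroup.lift_apply_of, fj, fi]; group
    · have : g k = FreeGroup.of k := if_neg hk
      rw [this, FreeGroup.lift_apply_of]; exact if_neg hk
  · show FreeGroup.lift f (FreeGroup.of i) = _
    rw [FreeGroup.lift_apply_of, fi]
  · show FreeGroup.lift f (FreeGroup.of j) = _
    rw [FreeGroup.lift_apply_of, fj]

/-- The key lemma: a homomorphism `ψ` from a free group of rank at least two which is invariant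
under a finite-index subgroup of the automorphism group has finite image. -/
theorem key (hn : 2 ≤ n) {G G' : Type*} [Group G] [Group G']
    (ρ : MulAut (FreeGroup (Fin n)) →* G') (hρ : (Set.range ρ).Finite)
    (ψ : FreeGroup (Fin n) →* G)
    (hψ : ∀ α : MulAut (FreeGroup (Fin n)), ρ α = 1 → ∀ w, ψ (α w) = ψ w) :
    (Set.range ψ).Finite := by
  classical
  have hfr : Finite ρ.range := hρ.to_subtype
  have hpow : ∀ α : MulAut (FreeGroup (Fin n)), ∃ m : ℕ, 0 < m ∧ ρ (α ^ m) = 1 := by
    intro α
    have h1 : IsOfFinOrder (⟨ρ α, α, rfl⟩ : ρ.range) := isOfFinOrder_of_finite _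
    obtain ⟨m, hm, h2⟩ := isOfFinOrder_iff_pow_eq_one.1 h1
    refine ⟨m, hm, ?_⟩
    rw [map_pow]
    exact congrArg Subtype.val h2
  -- generators have finite order
  have hgen : ∀ i : Fin n, IsOfFinOrder (ψ (FreeGroup.of i)) := by
    intro i
    obtain ⟨j, hij⟩ : ∃ j : Fin n, i ≠ j := by
      have : Nontrivial (Fin n) := Fin.nontrivial_iff_two_le.2 hn
      obtain ⟨j, hj⟩ := exists_ne i
      exact ⟨j, hj.symm⟩
    obtain ⟨l, hli, hlj⟩ := exists_trans hij
    obtain ⟨m, hm, h1⟩ := hpow l
    have h2 : ∀ k : ℕ, (l ^ k) (FreeGroup.of j) = FreeGroup.of j * (FreeGroup.of i) ^ k := by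
      intro k
      induction k with
      | zero => simp
      | succ k ih =>
        rw [pow_succ', MulAut.mul_apply, ih, map_mul, map_pow, hli, hlj, pow_succ', mul_assoc]
    have h3 := hψ (l ^ m) h1 (FreeGroup.of j)
    rw [h2, map_mul, map_pow] at h3
    exact isOfFinOrder_iff_pow_eq_one.2 ⟨m, hm, by simpa using h3⟩
  -- the centre of the image has finite index
  let c : FreeGroup (Fin n) →* MulAut (FreeGroup (Fin n)) := MulAut.conj
  have hK : ((ρ.comp c).ker).index ≠ 0 := by
    rw [index_ker]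
    have : Finite (ρ.comp c).range := by
      apply Set.Finite.to_subtype
      refine hρ.subset ?_
      rintro y ⟨v, rfl⟩
      exact ⟨c v, rfl⟩
    exact Nat.card_pos.ne'
  have hmap : ((ρ.comp c).ker).map ψ.rangeRestrict ≤ center ψ.range := by
    rintro y ⟨v, hv, rfl⟩
    rw [mem_center_iff]
    rintro ⟨z, w, rfl⟩
    have h4 := hψ (c v) hv w
    have h5 : c v w = v * w * v⁻¹ := rfl
    rw [h5, map_mul, map_mul, map_inv, mul_inv_eq_iff_eq_mul] at h4
    apply Subtype.ext
    exact h4.symm
  have hcen : (center ψ.range).index ≠ 0 := by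
    have h6 : (((ρ.comp c).ker).map ψ.rangeRestrict).index ≠ 0 := by
      intro h0
      have := index_map_dvd (H := (ρ.comp c).ker) (f := ψ.rangeRestrict) ψ.rangeRestrict_surjective
      rw [h0, zero_dvd_iff] at this
      exact hK this
    have : (((ρ.comp c).ker).map ψ.rangeRestrict).FiniteIndex := ⟨h6⟩
    exact (finiteIndex_of_le hmap).index_ne_zero
  have : Group.FG ψ.range := Group.fg_of_surjective (f := ψ.rangeRestrict) ψ.rangeRestrict_surjective
  have hfin : Finite ψ.range := by
    refine finite_of_center (Set.range fun i : Fin n => ψ.rangeRestrict (FreeGroup.of i)) ?_ ?_ hcen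
    · have h7 : (Set.range fun i : Fin n => ψ.rangeRestrict (FreeGroup.of i)) =
        ψ.rangeRestrict '' Set.range FreeGroup.of := by
        rw [← Set.range_comp]; rfl
      rw [h7, ← MonoidHom.map_closure, FreeGroup.closure_range_of, ← MonoidHom.range_eq_map,
        MonoidHom.range_eq_top.2 ψ.rangeRestrict_surjective]
    · rintro _ ⟨i, rfl⟩
      exact (Submonoid.isOfFinOrder_coe (x := ψ.rangeRestrict (FreeGroup.of i))).1 (hgen i)
  have : (Set.range ψ) = ((ψ.range : Subgroup G) : Set G) := by rw [MonoidHom.coe_range]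
  rw [this]
  exact Set.toFinite _

theorem restrict (σ : MulAut (FreeGroup (Fin (n + 1))))
    (h : (ι (n := n)).range.map (σ : FreeGroup (Fin (n + 1)) →* FreeGroup (Fin (n + 1))) =
      (ι (n := n)).range) : ∃ α : MulAut (FreeGroup (Fin n)), ∀ v, σ (ι v) = ι (α v) := by
  let e1 : FreeGroup (Fin n) ≃* (ι (n := n)).range := MonoidHom.ofInjective ι_inj
  let e2 : (ι (n := n)).range ≃* (ι (n := n)).range.map
    (σ : FreeGroup (Fin (n + 1)) →* FreeGroup (Fin (n + 1))) := σ.subgroupMap (ι (n := n)).range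
  let e3 := MulEquiv.subgroupCongr h
  refine ⟨e1.trans (e2.trans (e3.trans e1.symm)), fun v => ?_⟩
  have h1 : ι ((e1.trans (e2.trans (e3.trans e1.symm))) v) =
      ((e1 ((e1.trans (e2.trans (e3.trans e1.symm))) v) : (ι (n := n)).range) :
        FreeGroup (Fin (n + 1))) := rfl
  rw [h1]
  simp only [MulEquiv.trans_apply, MulEquiv.apply_symm_apply]
  rfl

/-- Let `F` be free of rank `n + 1 ≥ 3` with last generator `x` and let `F'` be the free factor
generated by the first `n` generators.  If the image under `φ : Aut F → G` of the standard copy of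
`Aut F'` is finite, then so is the image of the stabiliser of `F'`: the automorphisms which map `F'`
onto itself and `x` to `u x w` or `u x⁻¹ w` with `u, w ∈ F'`. -/
theorem result (n : ℕ) (hn : 2 ≤ n) (G : Type u) [Group G]
    (φ : MulAut (FreeGroup (Fin (n + 1))) →* G)
    (h : (φ '' {σ : MulAut (FreeGroup (Fin (n + 1))) |
      σ (FreeGroup.of (Fin.last n)) = FreeGroup.of (Fin.last n) ∧
      (Subgroup.closure (Set.range (fun i : Fin n => FreeGroup.of i.castSucc))).map
        (σ : FreeGroup (Fin (n + 1)) →* FreeGroup (Fin (n + 1))) =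
      Subgroup.closure (Set.range (fun i : Fin n => FreeGroup.of i.castSucc))}).Finite) :
    (φ '' {σ : MulAut (FreeGroup (Fin (n + 1))) |
      (Subgroup.closure (Set.range (fun i : Fin n => FreeGroup.of i.castSucc))).map
        (σ : FreeGroup (Fin (n + 1)) →* FreeGroup (Fin (n + 1))) =
      Subgroup.closure (Set.range (fun i : Fin n => FreeGroup.of i.castSucc)) ∧
      ∃ u ∈ Subgroup.closure (Set.range (fun i : Fin n => FreeGroup.of i.castSucc)),
      ∃ w ∈ Subgroup.closure (Set.range (fun i : Fin n => FreeGroup.of i.castSucc)),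
        σ (FreeGroup.of (Fin.last n)) = u * FreeGroup.of (Fin.last n) * w ∨
        σ (FreeGroup.of (Fin.last n)) = u * (FreeGroup.of (Fin.last n))⁻¹ * w}).Finite := by
  rw [← ι_range] at *
  have hρ : (Set.range (φ.comp E)).Finite := by
    refine h.subset ?_
    rintro _ ⟨α, rfl⟩
    refine ⟨E α, ⟨E_x α, ?_⟩, rfl⟩
    apply le_antisymm
    · rintro _ ⟨_, ⟨v, rfl⟩, rfl⟩
      exact ⟨α v, (E_ι α v).symm⟩
    · rintro _ ⟨v, rfl⟩
      refine ⟨ι (α⁻¹ v), ⟨_, rfl⟩, ?_⟩
      show E α (ι (α⁻¹ v)) = ι v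
      rw [E_ι]; simp
  have hR : (Set.range (φ.comp R)).Finite := by
    apply key hn (φ.comp E) hρ
    intro α hα w
    rw [MonoidHom.comp_apply] at hα
    rw [MonoidHom.comp_apply, MonoidHom.comp_apply, conj_R, map_mul, map_mul, map_inv, hα]
    simp
  have hL : (Set.range (φ.comp L)).Finite := by
    apply key hn (φ.comp E) hρ
    intro α hα w
    rw [MonoidHom.comp_apply] at hα
    rw [MonoidHom.comp_apply, MonoidHom.comp_apply, conj_L, map_mul, map_mul, map_inv, hα]
    simp
  have hJ : ({1, φ J} : Set G).Finite := Set.toFinite _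
  refine (((hL.mul hR).mul hJ).mul hρ).subset ?_
  rintro _ ⟨σ, ⟨hσ, _, ⟨u, rfl⟩, _, ⟨w, rfl⟩, hx⟩, rfl⟩
  obtain ⟨α, hα⟩ := restrict σ hσ
  rcases hx with hx | hx
  · have e : σ = L u⁻¹ * R w * 1 * E α := by
      apply aut_ext
      · intro v
        rw [mul_one, MulAut.mul_apply, MulAut.mul_apply, E_ι, hα]
        show _ = T _ _ (T _ _ _)
        rw [T_ι, T_ι]
      · rw [mul_one, MulAut.mul_apply, MulAut.mul_apply, E_x]
        show σ x = T _ _ (T _ _ x)
        rw [hx, T_x, map_mul, map_mul, T_ι, T_ι, T_x]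
        simp
    rw [e, map_mul, map_mul, map_mul, map_one]
    exact Set.mul_mem_mul (Set.mul_mem_mul (Set.mul_mem_mul ⟨_, rfl⟩ ⟨_, rfl⟩) (Or.inl rfl)) ⟨_, rfl⟩
  · have e : σ = L w * R u⁻¹ * J * E α := by
      apply aut_ext
      · intro v
        rw [MulAut.mul_apply, MulAut.mul_apply, MulAut.mul_apply, E_ι, J_ι, hα]
        show _ = T _ _ (T _ _ _)
        rw [T_ι, T_ι]
      · rw [MulAut.mul_apply, MulAut.mul_apply, MulAut.mul_apply, E_x, J_x]
        show σ x = T _ _ (T _ _ x⁻¹)
        rw [hx, map_inv, T_x, map_inv, map_mul, map_mul, T_ι, T_ι, T_x]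
        simp [mul_assoc]
    rw [e, map_mul, map_mul, map_mul]
    exact Set.mul_mem_mul (Set.mul_mem_mul (Set.mul_mem_mul ⟨_, rfl⟩ ⟨_, rfl⟩) (Or.inr rfl)) ⟨_, rfl⟩

end Pool.Agent.Results.MP_1d7b2e_al.StabiliserFinite
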